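import Pool.Agent.Helper78_MT.GroupA

/-! A Zariski closed monoid of matrices over a field of characteristic zero whose Lie algebra contains
the Lie algebra of a nondegenerate symmetric form contains the special orthogonal group of the form; if
the size is odd and it contains the scalars, it contains all similitudes. -/

set_option autoImplicit false
set_option linter.unusedSectionVars false
set_option linter.unusedSimpArgs false

namespace Pool.Agent.MT100B.H64

open MvPolynomial Matrix Module Pool.Agent.Helper78_MT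

variable {n : Type*} [Fintype n] [DecidableEq n] {K : Type*} [Field K]

/-! ### Formal curves -/

/-- polynomial along a formal curve -/
noncomputable def sev (Γ : Matrix n n (PowerSeries K)) :
    MvPolynomial (n × n) K →ₐ[K] PowerSeries K :=
  aeval (fun ij : n × n => Γ ij.1 ij.2)

theorem sev_deriv {Γ : Matrix n n (PowerSeries K)} {a : PowerSeries K} {A : Matrix n n K}
    (h : ∀ i j, a * PowerSeries.derivative K (Γ i j) = ∑ k, A k j • Γ i k)
    (p : MvPolynomial (n × n) K) :
    a * PowerSeries.derivative K (sev Γ p) = sev Γ (dr A p) := by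
  induction p using MvPolynomial.induction_on with
  | C c =>
    have e1 : sev Γ (C c) = algebraMap K (PowerSeries K) c := by simp [sev]
    rw [e1, Derivation.map_algebraMap, mul_zero]
    have e2 : dr A (C c) = 0 := by
      rw [← algebraMap_eq]; exact Derivation.map_algebraMap _ _
    rw [e2, map_zero]
  | add p q hp hq => rw [map_add, map_add, mul_add, hp, hq, map_add, map_add]
  | mul_X p ij hp =>
    rw [map_mul, Derivation.leibniz, Derivation.leibniz, map_add, smul_eq_mul, smul_eq_mul,
      smul_eq_mul, smul_eq_mul, map_mul, map_mul, ← hp, dr_X, map_sum]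
    have e1 : sev Γ (X ij) = Γ ij.1 ij.2 := by simp [sev]
    have e2 : ∀ k, sev Γ (A k ij.2 • X (ij.1, k)) = A k ij.2 • Γ ij.1 k := by
      intro k; rw [map_smul]; simp [sev]
    rw [e1, Finset.sum_congr rfl (fun k _ => e2 k), ← h]
    ring

theorem X_pow_dvd_of_deriv [CharZero K] {f : PowerSeries K} {k : ℕ}
    (h0 : PowerSeries.constantCoeff f = 0)
    (h : PowerSeries.X ^ k ∣ PowerSeries.derivative K f) : PowerSeries.X ^ (k + 1) ∣ f := by
  rw [PowerSeries.X_pow_dvd_iff] at h ⊢
  intro d hd
  rcases d with _ | d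
  · rw [PowerSeries.coeff_zero_eq_constantCoeff_apply]
    exact h0
  · have h1 := h d (by omega)
    rw [PowerSeries.coeff_derivative] at h1
    rcases mul_eq_zero.1 h1 with h2 | h2
    · exact h2
    · exact absurd h2 (by exact_mod_cast Nat.succ_ne_zero d)

/-- **Curve lemma.** A formal curve through `1` with velocity in the Lie algebra stays in the
closure. -/
theorem curve_mem [CharZero K] {G : Set (Matrix n n K)} (hone : 1 ∈ G)
    {Γ : Matrix n n (PowerSeries K)} {a b : PowerSeries K} (hab : b * a = 1) {A : Matrix n n K}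
    (h0 : Γ.map PowerSeries.constantCoeff = 1)
    (h : ∀ i j, a * PowerSeries.derivative K (Γ i j) = ∑ k, A k j • Γ i k)
    (hA : A ∈ lieOf G)
    (p : MvPolynomial (n × n) K) (hp : ∀ g ∈ G, pev g p = 0) : sev Γ p = 0 := by
  have h00 : ∀ p : MvPolynomial (n × n) K, PowerSeries.constantCoeff (sev Γ p) = pev 1 p := by
    intro p
    induction p using MvPolynomial.induction_on with
    | C c => simp [sev, pev]
    | add p q hp hq => rw [map_add, map_add, map_add, hp, hq]
    | mul_X p ij hp =>
      rw [map_mul, map_mul, map_mul, hp, pev_X]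
      have e1 : sev Γ (X ij) = Γ ij.1 ij.2 := by simp [sev]
      have e2 := congrFun (congrFun h0 ij.1) ij.2
      rw [Matrix.map_apply] at e2
      rw [e1, e2]
  have key : ∀ k : ℕ, ∀ p : MvPolynomial (n × n) K, (∀ g ∈ G, pev g p = 0) →
      PowerSeries.X ^ k ∣ sev Γ p := by
    intro k
    induction k with
    | zero => intro p _; rw [pow_zero]; exact one_dvd _
    | succ k ih =>
      intro p hp
      apply X_pow_dvd_of_deriv
      · rw [h00]
        exact hp 1 hone
      · have h1 := ih _ (mem_lieOf.1 hA p hp)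
        rw [← sev_deriv h] at h1
        have h2 := Dvd.dvd.mul_left h1 b
        rwa [← mul_assoc, hab, one_mul] at h2
  ext k
  have h1 := key (k + 1) p hp
  rw [PowerSeries.X_pow_dvd_iff] at h1
  rw [h1 k (Nat.lt_succ_self k), map_zero]

/-- clearing denominators -/
theorem clear {K : Type*} [Field K] (C' : Matrix n n (Polynomial K)) (d : Polynomial K)
    (p : MvPolynomial (n × n) K) : ∃ (N : ℕ) (Q : Polynomial K),
      (∀ u : PowerSeries K, u * (d : PowerSeries K) = 1 →
        sev (Matrix.of fun i j => u * (C' i j : PowerSeries K)) p * (d : PowerSeries K) ^ N =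
          (Q : PowerSeries K)) ∧
      ∀ t u : K, u * d.eval t = 1 →
        pev (Matrix.of fun i j => u * (C' i j).eval t) p * (d.eval t) ^ N = Q.eval t := by
  induction p using MvPolynomial.induction_on with
  | C c =>
    refine ⟨0, Polynomial.C c, ?_, ?_⟩
    · intro u _
      rw [pow_zero, mul_one, Polynomial.coe_C]
      simp only [sev, aeval_C]
      rfl
    · intro t u _
      rw [pow_zero, mul_one, Polynomial.eval_C, pev_C]
      rfl
  | add p q hp hq =>
    obtain ⟨N, Q, h1, h2⟩ := hp
    obtain ⟨M, P, h3, h4⟩ := hq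
    refine ⟨N + M, Q * d ^ M + P * d ^ N, ?_, ?_⟩
    · intro u hu
      rw [map_add, Polynomial.coe_add, Polynomial.coe_mul, Polynomial.coe_mul, Polynomial.coe_pow,
        Polynomial.coe_pow, ← h1 u hu, ← h3 u hu]
      ring
    · intro t u hu
      rw [map_add, Polynomial.eval_add, Polynomial.eval_mul, Polynomial.eval_mul,
        Polynomial.eval_pow, Polynomial.eval_pow, ← h2 t u hu, ← h4 t u hu]
      ring
  | mul_X p ij hp =>
    obtain ⟨N, Q, h1, h2⟩ := hp
    refine ⟨N + 1, Q * C' ij.1 ij.2, ?_, ?_⟩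
    · intro u hu
      have e1 : sev (Matrix.of fun i j => u * (C' i j : PowerSeries K)) (X ij) =
          u * (C' ij.1 ij.2 : PowerSeries K) := by simp [sev]
      rw [map_mul, Polynomial.coe_mul, ← h1 u hu, e1]
      have e2 : ∀ s e c : PowerSeries K, s * (u * c) * e ^ (N + 1) = s * e ^ N * c * (u * e) := by
        intro s e c
        ring
      rw [e2, hu, mul_one]
    · intro t u hu
      rw [map_mul, Polynomial.eval_mul, ← h2 t u hu, pev_X, Matrix.of_apply]
      have e2 : ∀ s e c : K, s * (u * c) * e ^ (N + 1) = s * e ^ N * c * (u * e) := by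
        intro s e c
        ring
      rw [e2, hu, mul_one]

/-! ### Reflections -/

section ring
variable {R : Type*} [CommRing R]

/-- the value of the quadratic form -/
def qf (F : Matrix n n R) (a : n → R) : R := a ⬝ᵥ (F *ᵥ a)

/-- `q(a) - 2 a aᵀ F` -/
def rho (F : Matrix n n R) (a : n → R) : Matrix n n R :=
  (qf F a) • (1 : Matrix n n R) - (2 : R) • vecMulVec a (F *ᵥ a)

/-- the infinitesimal rotation -/
def rot (F : Matrix n n R) (a b : n → R) : Matrix n n R :=
  vecMulVec a (F *ᵥ b) - vecMulVec b (F *ᵥ a)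

theorem rho_sq (F : Matrix n n R) (a : n → R) :
    rho F a * rho F a = (qf F a) ^ 2 • (1 : Matrix n n R) := by
  have h1 : vecMulVec a (F *ᵥ a) * vecMulVec a (F *ᵥ a) =
      (qf F a) • vecMulVec a (F *ᵥ a) := by
    rw [vecMulVec_mul_vecMulVec, dotProduct_comm]
    ext i j
    simp [vecMulVec_apply, qf]
    ring
  unfold rho
  rw [sub_mul, mul_sub, mul_sub, smul_mul_smul_comm, smul_mul_smul_comm, smul_mul_smul_comm,
    smul_mul_smul_comm, h1, one_mul, one_mul, mul_one]
  module

theorem rho_adj {F : Matrix n n R} (hF : Fᵀ = F) (a : n → R) :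
    (rho F a)ᵀ * F = F * rho F a := by
  unfold rho
  rw [transpose_sub, transpose_smul, transpose_smul, transpose_one, transpose_vecMulVec, sub_mul,
    mul_sub, smul_mul_assoc, mul_smul_comm, one_mul, mul_one, smul_mul_assoc, mul_smul_comm,
    vecMulVec_mul, mul_vecMulVec]
  congr 3
  rw [← mulVec_transpose, hF]

theorem rot_skew {F : Matrix n n R} (hF : Fᵀ = F) (a b : n → R) :
    (rot F a b)ᵀ * F + F * rot F a b = 0 := by
  unfold rot
  rw [transpose_sub, transpose_vecMulVec, transpose_vecMulVec, sub_mul, mul_sub, vecMulVec_mul,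
    vecMulVec_mul, mul_vecMulVec, mul_vecMulVec, ← mulVec_transpose, ← mulVec_transpose, hF]
  abel

theorem bil_symm {F : Matrix n n R} (hF : Fᵀ = F) (a b : n → R) :
    a ⬝ᵥ (F *ᵥ b) = b ⬝ᵥ (F *ᵥ a) := by
  rw [dotProduct_mulVec, ← mulVec_transpose, hF, dotProduct_comm]

theorem rho_rot {F : Matrix n n R} (hF : Fᵀ = F) (b c : n → R) :
    rho F b * rot F b c = (2 * (b ⬝ᵥ (F *ᵥ c))) • vecMulVec b (F *ᵥ b) -
      qf F b • vecMulVec b (F *ᵥ c) - qf F b • vecMulVec c (F *ᵥ b) := by
  have h1 : vecMulVec b (F *ᵥ b) * vecMulVec b (F *ᵥ c) =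
      (qf F b) • vecMulVec b (F *ᵥ c) := by
    rw [vecMulVec_mul_vecMulVec, dotProduct_comm]
    ext i j
    simp [vecMulVec_apply, qf]
    ring
  have h2 : vecMulVec b (F *ᵥ b) * vecMulVec c (F *ᵥ b) =
      (b ⬝ᵥ (F *ᵥ c)) • vecMulVec b (F *ᵥ b) := by
    rw [vecMulVec_mul_vecMulVec, dotProduct_comm, bil_symm hF b c]
    ext i j
    simp [vecMulVec_apply]
    ring
  unfold rho rot
  rw [sub_mul, mul_sub, mul_sub, smul_mul_assoc, smul_mul_assoc, smul_mul_assoc, smul_mul_assoc,
    h1, h2, one_mul, one_mul]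
  module

end ring

theorem qf_map {R S : Type*} [CommRing R] [CommRing S] (f : R →+* S) (F : Matrix n n R)
    (a : n → R) : qf (F.map f) (fun i => f (a i)) = f (qf F a) := by
  simp only [qf, dotProduct, mulVec, map_sum, map_mul, Matrix.map_apply]

theorem rho_map {R S : Type*} [CommRing R] [CommRing S] (f : R →+* S) (F : Matrix n n R)
    (a : n → R) : (rho F a).map f = rho (F.map f) (fun i => f (a i)) := by
  have h1 : ∀ i, (F.map f *ᵥ fun i => f (a i)) i = f ((F *ᵥ a) i) := by
    intro i
    simp [mulVec, dotProduct, map_sum]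
  ext i j
  unfold rho
  rw [qf_map, Matrix.map_apply, Matrix.sub_apply, Matrix.sub_apply, Matrix.smul_apply,
    Matrix.smul_apply, Matrix.smul_apply, Matrix.smul_apply, vecMulVec_apply, vecMulVec_apply, h1,
    map_sub, smul_eq_mul, smul_eq_mul, smul_eq_mul, smul_eq_mul, map_mul, map_mul, map_mul,
    map_ofNat, Matrix.one_apply, Matrix.one_apply]
  split_ifs <;> simp

/-- the logarithmic derivative of a moving reflection -/
theorem rho_ode {F : Matrix n n K} (hF : Fᵀ = F) (a c : n → K) (i j : n) :
    let F' := F.map (Polynomial.C)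
    let b' : n → Polynomial K := fun i => Polynomial.C (a i) + Polynomial.X * Polynomial.C (c i)
    qf F' b' * Polynomial.derivative (rho F' b' i j) =
      Polynomial.derivative (qf F' b') * rho F' b' i j +
        ∑ k, ((2 : K) • rot F a c) k j • rho F' b' i k := by
  intro F' b'
  have hF' : F'ᵀ = F' := by
    change (F.map Polynomial.C)ᵀ = F.map Polynomial.C
    rw [← Matrix.transpose_map, hF]
  obtain ⟨c', hc'⟩ : ∃ c' : n → Polynomial K, c' = fun i => Polynomial.C (c i) := ⟨_, rfl⟩
  have hFc : ∀ i, (F' *ᵥ c') i = Polynomial.C ((F *ᵥ c) i) := by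
    intro i
    rw [hc']
    simp [F', mulVec, dotProduct, map_sum]
  have hFb : ∀ i, (F' *ᵥ b') i = Polynomial.C ((F *ᵥ a) i) + Polynomial.X * Polynomial.C ((F *ᵥ c) i) := by
    intro i
    simp only [F', b', mulVec, dotProduct, map_sum, Matrix.map_apply, Finset.mul_sum, map_mul]
    rw [← Finset.sum_add_distrib]
    apply Finset.sum_congr rfl
    intro k _
    ring
  have hdFb : ∀ i, Polynomial.derivative ((F' *ᵥ b') i) = (F' *ᵥ c') i := by
    intro i
    rw [hFb, hFc]
    simp
  have hdb : ∀ i, Polynomial.derivative (b' i) = c' i := by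
    intro i
    rw [hc']
    simp [b']
  have hdq : Polynomial.derivative (qf F' b') = 2 * (b' ⬝ᵥ (F' *ᵥ c')) := by
    have e1 : Polynomial.derivative (qf F' b') = c' ⬝ᵥ (F' *ᵥ b') + b' ⬝ᵥ (F' *ᵥ c') := by
      unfold qf
      rw [dotProduct, Polynomial.derivative_sum, dotProduct, dotProduct, ← Finset.sum_add_distrib]
      apply Finset.sum_congr rfl
      intro k _
      rw [Polynomial.derivative_mul, hdb, hdFb]
    rw [e1, bil_symm hF' c' b']
    ring
  have hrot : (rot F a c).map Polynomial.C = rot F' b' c' := by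
    ext1 i j
    unfold rot
    rw [Matrix.map_apply, Matrix.sub_apply, Matrix.sub_apply, vecMulVec_apply, vecMulVec_apply,
      vecMulVec_apply, vecMulVec_apply, hFc, hFb, map_sub, map_mul, map_mul, hc']
    simp only [b']
    ring
  have hsum : ∑ k, ((2 : K) • rot F a c) k j • rho F' b' i k =
      2 * (rho F' b' * rot F' b' c') i j := by
    rw [← hrot, Matrix.mul_apply, Finset.mul_sum]
    apply Finset.sum_congr rfl
    intro k _
    rw [Matrix.smul_apply, Matrix.map_apply, Polynomial.smul_eq_C_mul, smul_eq_mul, map_mul]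
    have e2 : (Polynomial.C (2 : K) : Polynomial K) = 2 := by
      rw [map_ofNat]
    rw [e2]
    ring
  have hdB : Polynomial.derivative (rho F' b' i j) =
      Polynomial.derivative (qf F' b') * (1 : Matrix n n (Polynomial K)) i j -
        2 * (c' i * (F' *ᵥ b') j + b' i * (F' *ᵥ c') j) := by
    have e1 : rho F' b' i j = qf F' b' * (1 : Matrix n n (Polynomial K)) i j -
        2 * (b' i * (F' *ᵥ b') j) := by
      unfold rho
      rw [Matrix.sub_apply, Matrix.smul_apply, Matrix.smul_apply, vecMulVec_apply, smul_eq_mul,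
        smul_eq_mul]
    rw [e1, Polynomial.derivative_sub, Polynomial.derivative_mul, Polynomial.derivative_mul,
      Polynomial.derivative_mul, hdb, hdFb]
    have e2 : Polynomial.derivative ((1 : Matrix n n (Polynomial K)) i j) = 0 := by
      rw [Matrix.one_apply]
      split_ifs
      · exact Polynomial.derivative_one
      · exact Polynomial.derivative_zero
    have e3 : Polynomial.derivative (2 : Polynomial K) = 0 := by
      exact Polynomial.derivative_ofNat 2
    rw [e2, e3]
    ring
  rw [hsum, rho_rot hF', hdB, hdq]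
  unfold rho
  rw [Matrix.sub_apply, Matrix.sub_apply, Matrix.sub_apply, Matrix.smul_apply, Matrix.smul_apply,
    Matrix.smul_apply, Matrix.smul_apply, Matrix.smul_apply, vecMulVec_apply, vecMulVec_apply,
    vecMulVec_apply]
  simp only [smul_eq_mul]
  ring

/-- the reflection -/
noncomputable def refl (F : Matrix n n K) (a : n → K) : Matrix n n K := (qf F a)⁻¹ • rho F a

/-- products of two reflections -/
theorem pair_mem [CharZero K] {G : Set (Matrix n n K)} (hone : 1 ∈ G) {F : Matrix n n K}
    (hF : Fᵀ = F) (hso : ∀ X : Matrix n n K, Xᵀ * F + F * X = 0 → X ∈ lieOf G)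
    {a b : n → K} (ha : qf F a ≠ 0) (hb : qf F b ≠ 0) (p : MvPolynomial (n × n) K)
    (hp : ∀ g ∈ G, pev g p = 0) : pev (refl F a * refl F b) p = 0 := by
  obtain ⟨c, hc⟩ : ∃ c, c = b - a := ⟨_, rfl⟩
  obtain ⟨F', hF'⟩ : ∃ F', F' = F.map (Polynomial.C) := ⟨_, rfl⟩
  obtain ⟨b', hb'⟩ : ∃ b' : n → Polynomial K,
    b' = fun i => Polynomial.C (a i) + Polynomial.X * Polynomial.C (c i) := ⟨_, rfl⟩
  obtain ⟨qb, hqb⟩ : ∃ qb, qb = qf F' b' := ⟨_, rfl⟩
  obtain ⟨B, hB⟩ : ∃ B, B = rho F' b' := ⟨_, rfl⟩
  obtain ⟨C', hC'⟩ : ∃ C', C' = (rho F a).map Polynomial.C * B := ⟨_, rfl⟩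
  obtain ⟨W, hW⟩ : ∃ W, W = (2 : K) • rot F a c := ⟨_, rfl⟩
  have hWl : W ∈ lieOf G := by
    apply hso
    rw [hW, transpose_smul, smul_mul_assoc, mul_smul_comm, ← smul_add, rot_skew hF, smul_zero]
  have hode : ∀ i j, qb * Polynomial.derivative (B i j) =
      Polynomial.derivative qb * B i j + ∑ k, W k j • B i k := by
    intro i j
    have e1 := rho_ode hF a c i j
    simp only at e1
    rw [← hF', ← hb', ← hB, ← hqb, ← hW] at e1
    exact e1
  have hode' : ∀ i j, qb * Polynomial.derivative (C' i j) =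
      Polynomial.derivative qb * C' i j + ∑ k, W k j • C' i k := by
    intro i j
    have e1 : ∀ j, C' i j = ∑ l, Polynomial.C (rho F a i l) * B l j := by
      intro j
      rw [hC', Matrix.mul_apply]
      rfl
    have e2 : Polynomial.derivative (C' i j) =
        ∑ l, Polynomial.C (rho F a i l) * Polynomial.derivative (B l j) := by
      rw [e1, Polynomial.derivative_sum]
      apply Finset.sum_congr rfl
      intro l _
      rw [Polynomial.derivative_C_mul]
    have e3 : ∑ k, W k j • C' i k = ∑ l, Polynomial.C (rho F a i l) * ∑ k, W k j • B l k := by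
      simp only [e1, Finset.smul_sum, Finset.mul_sum]
      rw [Finset.sum_comm]
      apply Finset.sum_congr rfl
      intro l _
      apply Finset.sum_congr rfl
      intro k _
      rw [mul_smul_comm]
    rw [e2, e3, e1, Finset.mul_sum, Finset.mul_sum, ← Finset.sum_add_distrib]
    apply Finset.sum_congr rfl
    intro l _
    have e4 := hode l j
    calc qb * (Polynomial.C (rho F a i l) * Polynomial.derivative (B l j)) =
        Polynomial.C (rho F a i l) * (qb * Polynomial.derivative (B l j)) := by ring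
      _ = _ := by rw [e4]; ring
  obtain ⟨d, hd⟩ : ∃ d, d = Polynomial.C (qf F a) * qb := ⟨_, rfl⟩
  have hev : ∀ t : K, qb.eval t = qf F (fun i => a i + t * c i) ∧
      B.map (Polynomial.eval t) = rho F (fun i => a i + t * c i) := by
    intro t
    have e2 : F'.map (Polynomial.evalRingHom t) = F := by
      rw [hF']
      ext i j
      simp
    have e4 : (fun i => Polynomial.evalRingHom t (b' i)) = (fun i => a i + t * c i) := by
      ext i
      rw [hb', Polynomial.coe_evalRingHom, Polynomial.eval_add, Polynomial.eval_C,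
        Polynomial.eval_mul, Polynomial.eval_X, Polynomial.eval_C]
    constructor
    · have e5 := qf_map (Polynomial.evalRingHom t) F' b'
      rw [e2, e4, ← hqb] at e5
      exact e5.symm
    · have e5 := rho_map (Polynomial.evalRingHom t) F' b'
      rw [e2, e4, ← hB] at e5
      exact e5
  have hd0 : d.eval 0 = qf F a ^ 2 := by
    have e1 := (hev 0).1
    have e2 : (fun i => a i + 0 * c i) = a := by
      ext i
      ring
    rw [e2] at e1
    rw [hd, Polynomial.eval_mul, Polynomial.eval_C, e1]
    ring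
  have hd1 : d.eval 1 = qf F a * qf F b := by
    have e1 := (hev 1).1
    have e2 : (fun i => a i + 1 * c i) = b := by
      ext i
      rw [hc, Pi.sub_apply]
      ring
    rw [e2] at e1
    rw [hd, Polynomial.eval_mul, Polynomial.eval_C, e1]
  have hCev : ∀ t : K, C'.map (Polynomial.eval t) = rho F a * rho F (fun i => a i + t * c i) := by
    intro t
    rw [← (hev t).2, hC']
    have e1 : ((rho F a).map Polynomial.C * B).map (Polynomial.evalRingHom t) =
        ((rho F a).map Polynomial.C).map (Polynomial.evalRingHom t) *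
          B.map (Polynomial.evalRingHom t) := Matrix.map_mul
    have e2 : ((rho F a).map Polynomial.C).map (Polynomial.evalRingHom t) = rho F a := by
      ext i j
      simp
    rw [e2] at e1
    exact e1
  obtain ⟨u, hu⟩ : ∃ u : PowerSeries K, u = (d : PowerSeries K)⁻¹ := ⟨_, rfl⟩
  have hdc : PowerSeries.constantCoeff (d : PowerSeries K) = qf F a ^ 2 := by
    rw [Polynomial.constantCoeff_coe, Polynomial.coeff_zero_eq_eval_zero, hd0]
  have hud : u * (d : PowerSeries K) = 1 := by
    rw [hu]
    apply PowerSeries.inv_mul_cancel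
    rw [hdc]
    exact pow_ne_zero _ ha
  have hqc : PowerSeries.constantCoeff (qb : PowerSeries K) ≠ 0 := by
    rw [Polynomial.constantCoeff_coe, Polynomial.coeff_zero_eq_eval_zero]
    have e1 := (hev 0).1
    have e2 : (fun i => a i + 0 * c i) = a := by
      ext i
      ring
    rw [e2] at e1
    rw [e1]
    exact ha
  have hdq : (d : PowerSeries K) = PowerSeries.C (qf F a) * (qb : PowerSeries K) := by
    rw [hd, Polynomial.coe_mul, Polynomial.coe_C]
  -- derivative of the inverse
  have hdu : (qb : PowerSeries K) * PowerSeries.derivative K u =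
      -(u * PowerSeries.derivative K (qb : PowerSeries K)) := by
    have e1 := congrArg (PowerSeries.derivative K) hud
    have e0 : PowerSeries.derivative K (1 : PowerSeries K) = 0 := PowerSeries.derivative_one
    have e2 : PowerSeries.derivative K (d : PowerSeries K) =
        PowerSeries.C (qf F a) * PowerSeries.derivative K (qb : PowerSeries K) := by
      have e4 : PowerSeries.derivative K (PowerSeries.C (qf F a)) = 0 := PowerSeries.derivative_C
      rw [hdq, Derivation.leibniz, smul_eq_mul, smul_eq_mul, e4, mul_zero, add_zero]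
    rw [Derivation.leibniz, smul_eq_mul, smul_eq_mul, e0, e2, hdq] at e1
    have e3 : (PowerSeries.C (qf F a)⁻¹ : PowerSeries K) * PowerSeries.C (qf F a) = 1 := by
      rw [← map_mul, inv_mul_cancel₀ ha, map_one]
    have e5 : u * PowerSeries.derivative K (qb : PowerSeries K) +
        (qb : PowerSeries K) * PowerSeries.derivative K u = 0 := by
      calc u * PowerSeries.derivative K (qb : PowerSeries K) +
          (qb : PowerSeries K) * PowerSeries.derivative K u =
          1 * (u * PowerSeries.derivative K (qb : PowerSeries K)) +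
          1 * ((qb : PowerSeries K) * PowerSeries.derivative K u) := by ring
        _ = PowerSeries.C (qf F a)⁻¹ * (u * (PowerSeries.C (qf F a) *
            PowerSeries.derivative K (qb : PowerSeries K)) +
            PowerSeries.C (qf F a) * (qb : PowerSeries K) * PowerSeries.derivative K u) := by
          rw [← e3]; ring
        _ = 0 := by rw [e1, mul_zero]
    exact eq_neg_of_add_eq_zero_right e5
  obtain ⟨Γ, hΓ⟩ : ∃ Γ : Matrix n n (PowerSeries K),
    Γ = Matrix.of fun i j => u * (C' i j : PowerSeries K) := ⟨_, rfl⟩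
  have hcurve := curve_mem hone (Γ := Γ) (a := (qb : PowerSeries K))
    (b := (qb : PowerSeries K)⁻¹) (PowerSeries.inv_mul_cancel _ hqc)
    (by
      ext i j
      rw [Matrix.map_apply, hΓ, Matrix.of_apply, map_mul, Polynomial.constantCoeff_coe,
        Polynomial.coeff_zero_eq_eval_zero]
      have e1 := congrFun (congrFun (hCev 0) i) j
      have e2 : (fun i => a i + 0 * c i) = a := by
        ext i
        ring
      rw [Matrix.map_apply, e2, rho_sq, Matrix.smul_apply, smul_eq_mul] at e1
      have e3 := congrArg PowerSeries.constantCoeff hud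
      rw [map_mul, hdc, map_one] at e3
      rw [e1, ← mul_assoc, e3, one_mul])
    (by
      intro i j
      have e1 : ∀ k, Γ i k = u * (C' i k : PowerSeries K) := by
        intro k
        rw [hΓ, Matrix.of_apply]
      have e2 := congrArg (fun f : Polynomial K => (f : PowerSeries K)) (hode' i j)
      simp only [Polynomial.coe_mul, Polynomial.coe_add] at e2
      have e3 : ((∑ k, W k j • C' i k : Polynomial K) : PowerSeries K) =
          ∑ k, W k j • (C' i k : PowerSeries K) := by
        have e4 := map_sum (Polynomial.coeToPowerSeries.ringHom (R := K))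
          (fun k => W k j • C' i k) Finset.univ
        rw [Polynomial.coeToPowerSeries.ringHom_apply] at e4
        rw [e4]
        apply Finset.sum_congr rfl
        intro k _
        rw [Polynomial.coeToPowerSeries.ringHom_apply, Polynomial.coe_smul]
      rw [e3, ← PowerSeries.derivative_coe, ← PowerSeries.derivative_coe] at e2
      have e5 : ∑ k, W k j • Γ i k = u * ∑ k, W k j • (C' i k : PowerSeries K) := by
        rw [Finset.mul_sum]
        apply Finset.sum_congr rfl
        intro k _
        rw [e1, mul_smul_comm]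
      rw [e5, e1, Derivation.leibniz, smul_eq_mul, smul_eq_mul]
      calc (qb : PowerSeries K) * (u * PowerSeries.derivative K (C' i j : PowerSeries K) +
            (C' i j : PowerSeries K) * PowerSeries.derivative K u) =
          u * ((qb : PowerSeries K) * PowerSeries.derivative K (C' i j : PowerSeries K)) +
            (C' i j : PowerSeries K) * ((qb : PowerSeries K) * PowerSeries.derivative K u) := by ring
        _ = _ := by rw [e2, hdu]; ring)
    hWl p hp
  obtain ⟨N, Q, h1, h2⟩ := clear C' d p
  have h3 := h1 u hud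
  rw [← hΓ, hcurve, zero_mul] at h3
  have hQ : Q = 0 := by
    apply Polynomial.coe_injective
    rw [← h3, Polynomial.coe_zero]
  have hne : d.eval 1 ≠ 0 := by
    rw [hd1]
    exact mul_ne_zero ha hb
  have h4 := h2 1 (d.eval 1)⁻¹ (inv_mul_cancel₀ hne)
  rw [hQ, Polynomial.eval_zero] at h4
  have h5 := (mul_eq_zero.1 h4).resolve_right (pow_ne_zero _ hne)
  have h6 : (Matrix.of fun i j => (d.eval 1)⁻¹ * (C' i j).eval 1) = refl F a * refl F b := by
    have e1 := hCev 1
    have e2 : (fun i => a i + 1 * c i) = b := by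
      ext i
      rw [hc, Pi.sub_apply]
      ring
    rw [e2] at e1
    unfold refl
    rw [smul_mul_smul_comm, ← e1]
    ext i j
    rw [Matrix.of_apply, Matrix.smul_apply, Matrix.map_apply, smul_eq_mul, hd1, mul_inv]
  rwa [h6] at h5

/-! ### Generation by reflections -/

theorem refl_sq {F : Matrix n n K} {a : n → K} (ha : qf F a ≠ 0) : refl F a * refl F a = 1 := by
  unfold refl
  rw [smul_mul_smul_comm, rho_sq, smul_smul]
  have : (qf F a)⁻¹ * (qf F a)⁻¹ * qf F a ^ 2 = 1 := by
    field_simp
  rw [this, one_smul]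

theorem refl_orth {F : Matrix n n K} (hF : Fᵀ = F) {a : n → K} (ha : qf F a ≠ 0) :
    (refl F a)ᵀ * F * refl F a = F := by
  unfold refl
  rw [transpose_smul, smul_mul_assoc, rho_adj hF, smul_mul_smul_comm, mul_assoc, rho_sq,
    mul_smul_comm, mul_one, smul_smul]
  have : (qf F a)⁻¹ * (qf F a)⁻¹ * qf F a ^ 2 = 1 := by
    field_simp
  rw [this, one_smul]

theorem refl_apply (F : Matrix n n K) {a : n → K} (ha : qf F a ≠ 0) (x : n → K) :
    refl F a *ᵥ x = x - ((2 * (qf F a)⁻¹) * ((F *ᵥ a) ⬝ᵥ x)) • a := by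
  unfold refl rho
  rw [smul_mulVec, sub_mulVec, smul_mulVec, smul_mulVec, one_mulVec, vecMulVec_mulVec, smul_sub,
    smul_smul, inv_mul_cancel₀ ha, one_smul]
  congr 1
  ext i
  simp
  ring

theorem refl_det {F : Matrix n n K} {a : n → K} (ha : qf F a ≠ 0) : (refl F a).det = -1 := by
  have h1 : refl F a = 1 + vecMulVec ((-(2 * (qf F a)⁻¹)) • a) (F *ᵥ a) := by
    unfold refl rho
    ext i j
    rw [Matrix.smul_apply, Matrix.sub_apply, Matrix.smul_apply, Matrix.smul_apply, Matrix.add_apply,
      vecMulVec_apply, vecMulVec_apply, Pi.smul_apply]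
    simp only [smul_eq_mul]
    have : (qf F a)⁻¹ * (qf F a * (1 : Matrix n n K) i j - 2 * (a i * (F *ᵥ a) j)) =
        ((qf F a)⁻¹ * qf F a) * (1 : Matrix n n K) i j - (qf F a)⁻¹ * (2 * (a i * (F *ᵥ a) j)) := by
      ring
    rw [this, inv_mul_cancel₀ ha]
    ring
  rw [h1, vecMulVec_eq Unit, det_one_add_replicateCol_mul_replicateRow, dotProduct_smul,
    smul_eq_mul, dotProduct_comm]
  have h2 : a ⬝ᵥ (F *ᵥ a) = qf F a := rfl
  have h3 : -(2 * (qf F a)⁻¹) * qf F a = -2 := by
    rw [neg_mul, mul_assoc, inv_mul_cancel₀ ha, mul_one]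
  rw [h2, h3]
  norm_num

theorem exists_basis [CharZero K] {F : Matrix n n K} (hF : Fᵀ = F) (hdet : IsUnit F.det) :
    ∃ e : Basis (Fin (finrank K (n → K))) K (n → K),
      (∀ i j, i ≠ j → e i ⬝ᵥ (F *ᵥ e j) = 0) ∧ ∀ i, qf F (e i) ≠ 0 := by
  have _ : Invertible (2 : K) := invertibleOfNonzero two_ne_zero
  have hsym : LinearMap.IsSymm (Matrix.toBilin' F) := by
    refine ⟨fun x y => ?_⟩
    rw [Matrix.toBilin'_apply', Matrix.toBilin'_apply', RingHom.id_apply]
    exact bil_symm hF x y
  obtain ⟨e, he⟩ := LinearMap.BilinForm.exists_orthogonal_basis hsym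
  have h1 : ∀ i j, i ≠ j → e i ⬝ᵥ (F *ᵥ e j) = 0 := by
    intro i j hij
    have := he hij
    rw [Function.onFun] at this
    rw [← Matrix.toBilin'_apply']
    exact this
  refine ⟨e, h1, fun i hi => ?_⟩
  have h2 : F *ᵥ e i = 0 := by
    have h3 : ∀ x : n → K, x ⬝ᵥ (F *ᵥ e i) = 0 := by
      intro x
      have hx : x ∈ Submodule.span K (Set.range e) := by rw [e.span_eq]; trivial
      induction hx using Submodule.span_induction with
      | mem y hy =>
        obtain ⟨j, rfl⟩ := hy
        by_cases hij : j = i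
        · rw [hij]; exact hi
        · exact h1 j i hij
      | zero => rw [zero_dotProduct]
      | add y z _ _ hy hz => rw [add_dotProduct, hy, hz, add_zero]
      | smul c y _ hy => rw [smul_dotProduct, hy, smul_zero]
    ext j
    have := h3 (Pi.single j 1)
    simpa using this
  have h4 : e i = 0 := by
    have h5 : F⁻¹ *ᵥ (F *ᵥ e i) = 0 := by rw [h2, mulVec_zero]
    rwa [mulVec_mulVec, nonsing_inv_mul F hdet, one_mulVec] at h5
  exact e.ne_zero i h4

/-- the set of reflections -/
def reflSet (F : Matrix n n K) : Set (Matrix n n K) := {s | ∃ a, qf F a ≠ 0 ∧ s = refl F a}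

theorem refl_fix {F : Matrix n n K} (hF : Fᵀ = F) {a : n → K} (ha : qf F a ≠ 0) {x : n → K}
    (h : a ⬝ᵥ (F *ᵥ x) = 0) : refl F a *ᵥ x = x := by
  rw [refl_apply F ha, dotProduct_comm, bil_symm hF, h, mul_zero, zero_smul, sub_zero]

theorem refl_move {F : Matrix n n K} [CharZero K] (hF : Fᵀ = F) {y e : n → K}
    (hye : qf F y = qf F e) (ha : qf F (y - e) ≠ 0) : refl F (y - e) *ᵥ y = e := by
  have h1 : qf F (y - e) = 2 * (y ⬝ᵥ (F *ᵥ (y - e))) := by
    have e1 : qf F (y - e) = y ⬝ᵥ (F *ᵥ (y - e)) - e ⬝ᵥ (F *ᵥ (y - e)) := by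
      unfold qf
      rw [sub_dotProduct]
    have e2 : e ⬝ᵥ (F *ᵥ (y - e)) = - (y ⬝ᵥ (F *ᵥ (y - e))) := by
      rw [mulVec_sub, dotProduct_sub, dotProduct_sub, bil_symm hF e y]
      have e3 : y ⬝ᵥ (F *ᵥ y) = e ⬝ᵥ (F *ᵥ e) := hye
      rw [e3]
      ring
    rw [e1, e2]
    ring
  rw [refl_apply F ha, dotProduct_comm (F *ᵥ (y - e)) y]
  have h2 : 2 * (qf F (y - e))⁻¹ * (y ⬝ᵥ (F *ᵥ (y - e))) = 1 := by
    have h3 : 2 * (qf F (y - e))⁻¹ * (y ⬝ᵥ (F *ᵥ (y - e))) =
        (qf F (y - e))⁻¹ * (2 * (y ⬝ᵥ (F *ᵥ (y - e)))) := by ring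
    rw [h3, ← h1, inv_mul_cancel₀ ha]
  rw [h2, one_smul, sub_sub_cancel]

theorem orth_pair {F g : Matrix n n K} (hg : gᵀ * F * g = F) (x y : n → K) :
    (g *ᵥ x) ⬝ᵥ (F *ᵥ (g *ᵥ y)) = x ⬝ᵥ (F *ᵥ y) := by
  have h1 : (g *ᵥ x) ⬝ᵥ (F *ᵥ (g *ᵥ y)) = x ⬝ᵥ ((gᵀ * F * g) *ᵥ y) := by
    rw [← mulVec_mulVec, ← mulVec_mulVec, dotProduct_mulVec x, vecMul_transpose]
  rw [h1, hg]

theorem orth_mul {F g h : Matrix n n K} (hg : gᵀ * F * g = F) (hh : hᵀ * F * h = F) :
    (g * h)ᵀ * F * (g * h) = F := by
  have : (g * h)ᵀ * F * (g * h) = hᵀ * (gᵀ * F * g) * h := by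
    rw [transpose_mul]
    simp only [mul_assoc]
  rw [this, hg, hh]

/-- weak theorem of Cartan and Dieudonné -/
theorem cartan [CharZero K] {F : Matrix n n K} (hF : Fᵀ = F) (hdet : IsUnit F.det)
    {g : Matrix n n K} (hg : gᵀ * F * g = F) : g ∈ Submonoid.closure (reflSet F) := by
  obtain ⟨e, he1, he2⟩ := exists_basis hF hdet
  have key : ∀ (k : ℕ) (S : Finset (Fin (finrank K (n → K)))), Sᶜ.card = k →
      ∀ g : Matrix n n K, gᵀ * F * g = F → (∀ i ∈ S, g *ᵥ e i = e i) →
        g ∈ Submonoid.closure (reflSet F) := by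
    intro k
    induction k with
    | zero =>
      intro S hS g hg hfix
      have hS' : S = Finset.univ := by
        rw [Finset.card_eq_zero, Finset.compl_eq_empty_iff] at hS
        exact hS
      have h1 : g = 1 := by
        have h2 : Matrix.toLin' g = LinearMap.id := by
          apply e.ext
          intro i
          rw [Matrix.toLin'_apply, LinearMap.id_apply]
          exact hfix i (by rw [hS']; exact Finset.mem_univ i)
        rw [← Matrix.toLin'_one] at h2
        exact Matrix.toLin'.injective h2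
      rw [h1]
      exact Submonoid.one_mem _
    | succ k ih =>
      intro S hS g hg hfix
      obtain ⟨j, hj⟩ : ∃ j, j ∉ S := by
        by_contra hcon
        push Not at hcon
        have : Sᶜ = ∅ := by
          ext i
          simp [hcon i]
        rw [this, Finset.card_empty] at hS
        omega
      have hcard : ((insert j S)ᶜ).card = k := by
        have h1 : (insert j S).card = S.card + 1 := Finset.card_insert_of_notMem hj
        have h2 := Finset.card_compl_add_card S
        have h3 := Finset.card_compl_add_card (insert j S)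
        omega
      obtain ⟨y, hy⟩ : ∃ y, y = g *ᵥ e j := ⟨_, rfl⟩
      have hyq : qf F y = qf F (e j) := by
        rw [hy]
        exact orth_pair hg _ _
      have hperp : ∀ i ∈ S, y ⬝ᵥ (F *ᵥ e i) = 0 := by
        intro i hi
        have h1 := orth_pair hg (e j) (e i)
        rw [hfix i hi, ← hy] at h1
        rw [h1]
        exact he1 j i (by rintro rfl; exact hj hi)
      have hperp' : ∀ i ∈ S, e j ⬝ᵥ (F *ᵥ e i) = 0 := by
        intro i hi
        exact he1 j i (by rintro rfl; exact hj hi)
      by_cases h1 : qf F (y - e j) = 0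
      · have h2 : qf F (y - -e j) ≠ 0 := by
          have e1 : qf F (y - -e j) + qf F (y - e j) = 4 * qf F (e j) := by
            have e2 : qf F (y - -e j) + qf F (y - e j) = 2 * qf F y + 2 * qf F (e j) := by
              unfold qf
              simp only [mulVec_sub, mulVec_neg, dotProduct_sub, sub_dotProduct, neg_dotProduct,
                dotProduct_neg]
              ring
            rw [e2, hyq]
            ring
          rw [h1, add_zero] at e1
          rw [e1]
          exact mul_ne_zero (by norm_num) (he2 j)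
        have h3 : refl F (e j) * (refl F (y - -e j) * g) ∈ Submonoid.closure (reflSet F) := by
          apply ih (insert j S) hcard
          · exact orth_mul (refl_orth hF (he2 j)) (orth_mul (refl_orth hF h2) hg)
          · intro i hi
            rw [← mulVec_mulVec, ← mulVec_mulVec]
            rcases Finset.mem_insert.1 hi with rfl | hi
            · rw [← hy, refl_move hF (by rw [hyq]; unfold qf; simp [mulVec_neg]) h2]
              rw [mulVec_neg, refl_apply F (he2 _), dotProduct_comm]
              have e1 : e i ⬝ᵥ (F *ᵥ e i) = qf F (e i) := rfl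
              rw [e1, mul_assoc, inv_mul_cancel₀ (he2 i), mul_one, two_smul]
              abel
            · rw [hfix i hi, refl_fix hF h2, refl_fix hF (he2 j) (hperp' i hi)]
              rw [sub_dotProduct, neg_dotProduct, hperp i hi, hperp' i hi]
              simp
        have h4 : g = refl F (y - -e j) * (refl F (e j) * (refl F (e j) *
            (refl F (y - -e j) * g))) := by
          rw [← mul_assoc (refl F (e j)), refl_sq (he2 j), one_mul, ← mul_assoc, refl_sq h2, one_mul]
        rw [h4]
        exact Submonoid.mul_mem _ (Submonoid.subset_closure ⟨_, h2, rfl⟩)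
          (Submonoid.mul_mem _ (Submonoid.subset_closure ⟨_, he2 j, rfl⟩) h3)
      · have h3 : refl F (y - e j) * g ∈ Submonoid.closure (reflSet F) := by
          apply ih (insert j S) hcard
          · exact orth_mul (refl_orth hF h1) hg
          · intro i hi
            rw [← mulVec_mulVec]
            rcases Finset.mem_insert.1 hi with rfl | hi
            · rw [← hy, refl_move hF hyq h1]
            · rw [hfix i hi, refl_fix hF h1]
              rw [sub_dotProduct, hperp i hi, hperp' i hi, sub_zero]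
        have h4 : g = refl F (y - e j) * (refl F (y - e j) * g) := by
          rw [← mul_assoc, refl_sq h1, one_mul]
        rw [h4]
        exact Submonoid.mul_mem _ (Submonoid.subset_closure ⟨_, h1, rfl⟩) h3
  exact key _ ∅ rfl g hg (fun i hi => absurd hi (Finset.notMem_empty i))

/-- **Special orthogonal groups.** -/
theorem so_mem [CharZero K] {F : Matrix n n K} (hF : Fᵀ = F) (hdet : IsUnit F.det)
    {G : Set (Matrix n n K)} (hone : 1 ∈ G) (hmul : ∀ a ∈ G, ∀ b ∈ G, a * b ∈ G)
    (hcl : ∀ M : Matrix n n K, IsUnit M.det →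
      (∀ p : MvPolynomial (n × n) K, (∀ g ∈ G, pev g p = 0) → pev M p = 0) → M ∈ G)
    (hso : ∀ X : Matrix n n K, Xᵀ * F + F * X = 0 → X ∈ lieOf G)
    {g : Matrix n n K} (hg : gᵀ * F * g = F) (hgd : g.det = 1) : g ∈ G := by
  have hpair : ∀ a b : n → K, qf F a ≠ 0 → qf F b ≠ 0 → refl F a * refl F b ∈ G := by
    intro a b ha hb
    apply hcl
    · rw [det_mul, refl_det ha, refl_det hb]
      norm_num
    · exact pair_mem hone hF hso ha hb
  have key : ∀ g ∈ Submonoid.closure (reflSet F),
      (g ∈ G ∧ g.det = 1) ∨ ((∀ a, qf F a ≠ 0 → refl F a * g ∈ G) ∧ g.det = -1) := by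
    intro g hg
    induction hg using Submonoid.closure_induction_left with
    | one => exact Or.inl ⟨hone, det_one⟩
    | mul_left x hx y hy ih =>
      obtain ⟨b, hb, rfl⟩ := hx
      rcases ih with ⟨h1, h2⟩ | ⟨h1, h2⟩
      · right
        refine ⟨fun a ha => ?_, by rw [det_mul, refl_det hb, h2, mul_one]⟩
        rw [← mul_assoc]
        exact hmul _ (hpair a b ha hb) _ h1
      · left
        exact ⟨h1 b hb, by rw [det_mul, refl_det hb, h2]; norm_num⟩
  rcases key g (cartan hF hdet hg) with h | h
  · exact h.1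
  · exfalso
    have h1 := h.2
    rw [hgd] at h1
    have h2 : (2 : K) = 0 := by
      calc (2 : K) = 1 + 1 := by norm_num
        _ = 1 + -1 := by rw [← h1]
        _ = 0 := by norm_num
    exact two_ne_zero h2

/-- in odd dimension a similitude is a scalar times a special orthogonal matrix -/
theorem sim_dec {F : Matrix n n K} (hdet : IsUnit F.det)
    (hn : Odd (Fintype.card n)) {g : Matrix n n K} (hg : IsUnit g.det) {c : K}
    (hgc : gᵀ * F * g = c • F) : ∃ l : K, l ≠ 0 ∧ l ^ 2 = c ∧
      (l⁻¹ • g)ᵀ * F * (l⁻¹ • g) = F ∧ (l⁻¹ • g).det = 1 := by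
  obtain ⟨m, hm⟩ := hn
  have h1 := congrArg det hgc
  rw [det_mul, det_mul, det_transpose, det_smul, hm] at h1
  have h2 : g.det ^ 2 = c ^ (2 * m + 1) := by
    have h3 : (g.det ^ 2 - c ^ (2 * m + 1)) * F.det = 0 := by
      rw [sub_mul, ← h1]
      ring
    rcases mul_eq_zero.1 h3 with h4 | h4
    · exact sub_eq_zero.1 h4
    · exact absurd h4 hdet.ne_zero
  have hc : c ≠ 0 := by
    intro h0
    rw [h0, zero_pow (Nat.succ_ne_zero _)] at h2
    exact hg.ne_zero (pow_eq_zero_iff two_ne_zero |>.1 h2)
  obtain ⟨l, hl⟩ : ∃ l, l = g.det / c ^ m := ⟨_, rfl⟩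
  have hl0 : l ≠ 0 := by
    rw [hl]
    exact div_ne_zero hg.ne_zero (pow_ne_zero _ hc)
  have hl2 : l ^ 2 = c := by
    rw [hl, div_pow, h2, ← pow_mul, pow_succ, mul_comm m 2]
    exact mul_div_cancel_left₀ _ (pow_ne_zero _ hc)
  refine ⟨l, hl0, hl2, ?_, ?_⟩
  · rw [transpose_smul, smul_mul_assoc, smul_mul_smul_comm, hgc, smul_smul, ← hl2]
    have : l⁻¹ * l⁻¹ * l ^ 2 = 1 := by field_simp
    rw [this, one_smul]
  · rw [det_smul, hm]
    have h5 : g.det = l * c ^ m := by
      rw [hl, div_mul_cancel₀ _ (pow_ne_zero _ hc)]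
    have h6 : l * (l ^ 2) ^ m = l ^ (2 * m + 1) := by ring
    rw [h5, ← hl2, h6, inv_pow, inv_mul_cancel₀ (pow_ne_zero _ hl0)]

/-- **Similitudes in odd dimension.** -/
theorem sim_mem [CharZero K] {F : Matrix n n K} (hF : Fᵀ = F) (hdet : IsUnit F.det)
    (hn : Odd (Fintype.card n))
    {G : Set (Matrix n n K)} (hone : 1 ∈ G) (hmul : ∀ a ∈ G, ∀ b ∈ G, a * b ∈ G)
    (hcl : ∀ M : Matrix n n K, IsUnit M.det →
      (∀ p : MvPolynomial (n × n) K, (∀ g ∈ G, pev g p = 0) → pev M p = 0) → M ∈ G)
    (hso : ∀ X : Matrix n n K, Xᵀ * F + F * X = 0 → X ∈ lieOf G)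
    (hscal : ∀ t : K, t ≠ 0 → t • (1 : Matrix n n K) ∈ G)
    {g : Matrix n n K} (hg : IsUnit g.det) {c : K} (hgc : gᵀ * F * g = c • F) : g ∈ G := by
  obtain ⟨l, hl0, -, h1, h2⟩ := sim_dec hdet hn hg hgc
  have h3 := so_mem hF hdet hone hmul hcl hso h1 h2
  have h4 := hmul _ (hscal l hl0) _ h3
  rwa [smul_mul_smul_comm, one_mul, mul_inv_cancel₀ hl0, one_smul] at h4

end Pool.Agent.MT100B.H64
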